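import Mathlib
import Pool.Agent.W238.Leh.Count
import Pool.Agent.Helper259.HtExt

/-!
Fields of definition of the iterates of a point, canonical heights and embeddings.
-/

set_option autoImplicit false
set_option linter.unusedSectionVars false

namespace Pool.Agent.R829.DL

open NumberField Module MvPolynomial Filter Topology
open Pool.Agent.W238.Leh

noncomputable section

section hom

variable {K : Type} [Field K] [NumberField K] {N : ℕ}
variable {E M : Type} [Field E] [NumberField E] [Algebra K E] [Field M] [NumberField M]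
  [Algebra K M]

lemma act_map (φ : E →ₐ[K] M) (F : Fin (N + 1) → MvPolynomial (Fin (N + 1)) K)
    (y : Fin (N + 1) → E) : act F (fun i => φ (y i)) = fun i => φ (act F y i) := by
  funext i
  simp only [act]
  exact (MvPolynomial.comp_aeval_apply y φ (F i)).symm

lemma iter_map (φ : E →ₐ[K] M) (F : Fin (N + 1) → MvPolynomial (Fin (N + 1)) K)
    (n : ℕ) (y : Fin (N + 1) → E) :
    (act F)^[n] (fun i => φ (y i)) = fun i => φ ((act F)^[n] y i) := by
  induction n with
  | zero => rfl
  | succ n ih => rw [Function.iterate_succ_apply', ih, act_map, Function.iterate_succ_apply']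

lemma logHeight_hom (φ : E →+* M) (y : Fin (N + 1) → E) :
    Height.logHeight (fun i => φ (y i)) * finrank ℚ E = Height.logHeight y * finrank ℚ M := by
  let _ : Algebra E M := φ.toAlgebra
  have h1 := Pool.Agent.Helper259.HtExt.logHeight_ext (L := M) y
  have h2 : finrank ℚ E * finrank E M = finrank ℚ M := finrank_mul_finrank ℚ E M
  have h3 : (finrank ℚ E : ℝ) * finrank E M = finrank ℚ M := by exact_mod_cast h2
  have h4 : (fun i => φ (y i)) = fun i => algebraMap E M (y i) := rfl
  rw [h4, h1, ← h3]
  ring

/-- the canonical height does not change under embeddings of fields -/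
lemma canH_hom (φ : E →ₐ[K] M) (F : Fin (N + 1) → MvPolynomial (Fin (N + 1)) K) (d : ℕ)
    (y : Fin (N + 1) → E) : canH F d (fun i => φ (y i)) = canH F d y := by
  unfold canH
  congr 1
  funext n
  rw [iter_map]
  have h1 := logHeight_hom (φ : E →+* M) ((act F)^[n] y)
  have hE := finrank_pos' (L := E)
  have hM := finrank_pos' (L := M)
  have h2 : Height.logHeight (fun i => φ ((act F)^[n] y i)) =
      Height.logHeight ((act F)^[n] y) * finrank ℚ M / finrank ℚ E := by
    rw [eq_div_iff hE.ne']
    exact h1
  rw [h2]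
  rcases eq_or_ne ((d : ℝ) ^ n) 0 with h0 | h0
  · rw [h0]; simp
  · field_simp

end hom

section fod

variable {K k L : Type} [Field K] [NumberField K] [Field k] [NumberField k] [Field L]
  [NumberField L] [Algebra K k] [Algebra K L] [Algebra k L] [IsScalarTower K k L] {N : ℕ}

/-- the field generated over `k` by the ratios of the coordinates -/
def fod (k : Type) {L : Type} [Field k] [Field L] [Algebra k L] {N : ℕ} (x : Fin (N + 1) → L) :
    IntermediateField k L :=
  IntermediateField.adjoin k (Set.range fun ij : Fin (N + 1) × Fin (N + 1) => x ij.1 / x ij.2)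

/-- the inclusion of an intermediate field, as a homomorphism over the base field -/
def inc (K : Type) {k L : Type} [Field K] [Field k] [Field L] [Algebra K k] [Algebra K L]
    [Algebra k L] [IsScalarTower K k L] (E : IntermediateField k L) : E →ₐ[K] L :=
  (IntermediateField.val E).restrictScalars K

lemma exists_rep {x : Fin (N + 1) → L} (hx : x ≠ 0) {E : IntermediateField k L}
    (hE : fod k x = E) : ∃ (y : Fin (N + 1) → E) (c : L), c ≠ 0 ∧ x = c • (fun i => inc K E (y i)) ∧
      (∃ t, y t = 1) ∧ ∀ (M : Type) [Field M] [Algebra k M] (τ τ' : E →ₐ[k] M),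
        (∀ i, τ (y i) = τ' (y i)) → τ = τ' := by
  subst hE
  obtain ⟨t, ht⟩ : ∃ t, x t ≠ 0 := Function.ne_iff.mp hx
  have hmem : ∀ i, x i / x t ∈ fod k x := fun i =>
    IntermediateField.subset_adjoin k _ ⟨(i, t), rfl⟩
  refine ⟨fun i => ⟨x i / x t, hmem i⟩, x t, ht, ?_, ⟨t, ?_⟩, ?_⟩
  · funext i
    change x i = x t * (x i / x t)
    rw [mul_div_cancel₀ _ ht]
  · apply Subtype.ext
    change x t / x t = 1
    exact div_self ht
  · intro M _ _ τ τ' h
    refine IntermediateField.algHom_ext_of_eq_adjoin k (S := fod k x) rfl ?_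
    rintro _ ⟨⟨i, j⟩, rfl⟩
    have h1 : ∀ hm : x i / x j ∈ fod k x, (⟨x i / x j, hm⟩ : fod k x) =
        ⟨x i / x t, hmem i⟩ / ⟨x j / x t, hmem j⟩ := by
      intro hm
      apply Subtype.ext
      change x i / x j = (x i / x t) / (x j / x t)
      rcases eq_or_ne (x j) 0 with h0 | h0
      · rw [h0]; simp
      · field_simp
    simp only [h1, map_div₀, h]

lemma fod_smul {x : Fin (N + 1) → L} {c : L} (hc : c ≠ 0) : fod k (c • x) = fod k x := by
  unfold fod
  congr 2
  funext ij
  simp only [Pi.smul_apply, smul_eq_mul]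
  rw [mul_div_mul_left _ _ hc]

lemma fod_act {F : Fin (N + 1) → MvPolynomial (Fin (N + 1)) K} {d : ℕ}
    (hF : ∀ i, (F i).IsHomogeneous d) {x : Fin (N + 1) → L} (hx : x ≠ 0) :
    fod k (act F x) ≤ fod k x := by
  obtain ⟨y, c, hc, hxy, -, -⟩ := exists_rep (K := K) (k := k) hx rfl
  have h1 : act F x = c ^ d • act F (fun i => inc K (fod k x) (y i)) := by
    conv_lhs => rw [hxy]
    exact act_smul hF _ _
  rw [h1, fod_smul (pow_ne_zero d hc), act_map]
  unfold fod
  rw [IntermediateField.adjoin_le_iff]
  rintro _ ⟨⟨i, j⟩, rfl⟩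
  exact (fod k x).div_mem (act F y i).2 (act F y j).2

lemma fod_iter {F : Fin (N + 1) → MvPolynomial (Fin (N + 1)) K} {d A' : ℕ} {A : ℝ}
    (h : Bds F d A A') (hF : ∀ i, (F i).IsHomogeneous d) {x : Fin (N + 1) → L} (hx : x ≠ 0)
    {i j : ℕ} (hij : i ≤ j) : fod k ((act F)^[j] x) ≤ fod k ((act F)^[i] x) := by
  obtain ⟨m, rfl⟩ := Nat.exists_eq_add_of_le hij
  clear hij
  induction m with
  | zero => exact le_rfl
  | succ m ih =>
    refine le_trans ?_ ih
    rw [← add_assoc, Function.iterate_succ_apply']
    exact fod_act hF (h.iter_ne_zero hx _)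

end fod

section chain

variable {k L : Type} [Field k] [Field L] [Algebra k L] [FiniteDimensional k L]

lemma omega_lt {A B : IntermediateField k L} (h : A ≤ B) (hne : A ≠ B) :
    ArithmeticFunction.cardFactors (finrank k A) < ArithmeticFunction.cardFactors (finrank k B) := by
  obtain ⟨c, hc⟩ := IntermediateField.finrank_dvd_of_le_right h
  have hA : 0 < finrank k A := finrank_pos
  have hB : 0 < finrank k B := finrank_pos
  have hc0 : c ≠ 0 := by
    rintro rfl
    omega
  have hc1 : c ≠ 1 := by
    rintro rfl
    rw [mul_one] at hc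
    exact hne (IntermediateField.eq_of_le_of_finrank_eq h hc.symm)
  rw [hc, ArithmeticFunction.cardFactors_mul hA.ne' hc0]
  have h1 : 0 < ArithmeticFunction.cardFactors c := by
    rw [Nat.pos_iff_ne_zero]
    intro h0
    rw [ArithmeticFunction.cardFactors_eq_zero_iff_eq_zero_or_one] at h0
    rcases h0 with h0 | h0
    · exact hc0 h0
    · exact hc1 h0
  omega

lemma finite_inter [Algebra.IsSeparable k L] : Finite (IntermediateField k L) :=
  Field.finite_intermediateField_of_exists_primitive_element k L
    (Field.exists_primitive_element k L)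

/-- a chain of intermediate fields has at most `1 + Ω([L : k])` members -/
lemma ncard_chain (f : ℕ → IntermediateField k L) (hf : ∀ i j, i ≤ j → f j ≤ f i) :
    (Set.range f).ncard ≤ 1 + ArithmeticFunction.cardFactors (finrank k L) := by
  have h1 : (Set.range f).ncard ≤
      ((Finset.range (1 + ArithmeticFunction.cardFactors (finrank k L)) : Finset ℕ) :
        Set ℕ).ncard := by
    apply Set.ncard_le_ncard_of_injOn
      (fun E : IntermediateField k L => ArithmeticFunction.cardFactors (finrank k E))
    · intro E _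
      rw [Finset.coe_range, Set.mem_Iio]
      have h2 : ArithmeticFunction.cardFactors (finrank k E) ≤
          ArithmeticFunction.cardFactors (finrank k (⊤ : IntermediateField k L)) := by
        rcases eq_or_ne E ⊤ with rfl | h
        · exact le_rfl
        · exact (omega_lt le_top h).le
      rw [IntermediateField.finrank_top'] at h2
      show ArithmeticFunction.cardFactors (finrank k E) < _
      omega
    · rintro A ⟨i, rfl⟩ B ⟨j, rfl⟩ hAB
      by_contra hne
      rcases le_total i j with hij | hij
      · have := omega_lt (hf i j hij) (fun h => hne h.symm)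
        simp only at hAB
        omega
      · have := omega_lt (hf j i hij) hne
        simp only at hAB
        omega
  rwa [Set.ncard_coe_finset, Finset.card_range] at h1

end chain

section count

variable {K k L : Type} [Field K] [NumberField K] [Field k] [NumberField k] [Field L]
  [NumberField L] [Algebra K k] [Algebra K L] [Algebra k L] [IsScalarTower K k L] {N : ℕ}

/-- the hypothesis: the number of points of small height is bounded by `C * Φ(degree)` -/
def Few (F : Fin (N + 1) → MvPolynomial (Fin (N + 1)) K) (d : ℕ) (C : ℝ) (Φ : ℝ → ℝ) : Prop :=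
  ∀ (M : Type) [Field M] [NumberField M] [Algebra K M]
    (n : ℕ) (x : Fin n → Fin (N + 1) → M), (∀ i, x i ≠ 0) →
    (∀ i j, i ≠ j → ∀ b : M, x i ≠ b • x j) →
    (∀ i, canH F d (x i) ≤ 1 / (C * (finrank K M : ℝ))) →
    (n : ℝ) ≤ C * Φ (finrank K M)

lemma finrank_le_inter (M : IntermediateField k L) : finrank K M ≤ finrank K L := by
  have : FiniteDimensional K L := by
    have : FiniteDimensional ℚ L := inferInstance
    exact FiniteDimensional.right ℚ K L
  exact LinearMap.finrank_le_finrank_of_injective (f := (inc K M).toLinearMap)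
    (inc K M).injective

lemma finrank_pos_inter (M : IntermediateField k L) : 0 < finrank K M := by
  have h1 : FiniteDimensional K M := by
    have : FiniteDimensional ℚ M := inferInstance
    exact FiniteDimensional.right ℚ K M
  exact finrank_pos

/-- the iterates with a given field of definition, together with their conjugates -/
theorem level_count {F : Fin (N + 1) → MvPolynomial (Fin (N + 1)) K} {d a : ℕ} {A : ℝ}
    (h : Bds F d A a) (hd : 2 ≤ d) (hF : ∀ i, (F i).IsHomogeneous d)
    {C : ℝ} (hC : 0 < C) {Φ : ℝ → ℝ} (hfew : Few F d C Φ) {x : Fin (N + 1) → L} (hx : x ≠ 0)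
    (hpos : 0 < canH F d x) (T : ℕ)
    (hT : ∀ i < T, (d : ℝ) ^ i * canH F d x ≤ 1 / (C * (finrank K L : ℝ)))
    (E M : IntermediateField k L) [DecidableEq (IntermediateField k L)] :
    ((((Finset.range T).filter fun i => fod k ((act F)^[i] x) = E).card : ℕ) : ℝ) *
      (Nat.card (E →ₐ[k] M) : ℝ) ≤ C * Φ (finrank K M) := by
  classical
  set I := (Finset.range T).filter fun i => fod k ((act F)^[i] x) = E with hI
  have hfin : Finite (E →ₐ[k] M) := inferInstance
  have : Fintype (E →ₐ[k] M) := Fintype.ofFinite _
  have hrep : ∀ i : I, ∃ (y : Fin (N + 1) → E) (c : L), c ≠ 0 ∧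
      (act F)^[(i : ℕ)] x = c • (fun i => inc K E (y i)) ∧
      (∃ t, y t = 1) ∧ ∀ (M : Type) [Field M] [Algebra k M] (τ τ' : E →ₐ[k] M),
        (∀ i, τ (y i) = τ' (y i)) → τ = τ' := by
    intro i
    exact exists_rep (K := K) (h.iter_ne_zero hx _) (Finset.mem_filter.mp i.2).2
  choose y c hc0 hyc hy1 hyτ using hrep
  have hH : ∀ (i : I) (τ : E →ₐ[k] M), canH F d (fun s => τ (y i s)) =
      (d : ℝ) ^ (i : ℕ) * canH F d x := by
    intro i τ
    have h1 : canH F d (fun s => (τ.restrictScalars K) (y i s)) = canH F d (y i) :=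
      canH_hom (τ.restrictScalars K) F d (y i)
    have h2 : canH F d (fun s => inc K E (y i s)) = canH F d (y i) :=
      canH_hom (inc K E) F d (y i)
    have h3 := canH_smul hF (hc0 i) (fun s => inc K E (y i s))
    rw [← hyc i, h.canH_iter hd hx, h2] at h3
    rw [h3, ← h1]
    rfl
  set n := Fintype.card (I × (E →ₐ[k] M)) with hn
  have e : Fin n ≃ I × (E →ₐ[k] M) := (Fintype.equivFin _).symm
  have key := hfew M n (fun j s => (e j).2 (y (e j).1 s)) ?_ ?_ ?_
  · have h1 : (n : ℝ) = (I.card : ℝ) * (Nat.card (E →ₐ[k] M) : ℝ) := by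
      rw [hn, Fintype.card_prod, Fintype.card_coe, Nat.card_eq_fintype_card]
      push_cast
      ring
    rw [← h1]
    exact key
  · intro j h0
    obtain ⟨t, ht⟩ := hy1 (e j).1
    have h1 := congrFun h0 t
    simp only [ht, map_one, Pi.zero_apply] at h1
    exact one_ne_zero h1
  · intro j j' hjj b hb
    apply hjj
    apply e.injective
    have hb0 : b ≠ 0 := by
      rintro rfl
      obtain ⟨t, ht⟩ := hy1 (e j).1
      have h1 := congrFun hb t
      simp only [ht, map_one, zero_smul, Pi.zero_apply] at h1
      exact one_ne_zero h1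
    have h1 := hH (e j).1 (e j).2
    have h2 := hH (e j').1 (e j').2
    have h3 := canH_smul hF hb0 (fun s => (e j').2 (y (e j').1 s))
    have h4 : (fun s => (e j).2 (y (e j).1 s)) = b • fun s => (e j').2 (y (e j').1 s) := hb
    rw [← h4, h1, h2] at h3
    have h5 : (d : ℝ) ^ ((e j).1 : ℕ) = (d : ℝ) ^ ((e j').1 : ℕ) :=
      mul_right_cancel₀ hpos.ne' h3
    have hd' : (1 : ℝ) < d := by
      have : (2 : ℝ) ≤ d := by exact_mod_cast hd
      linarith
    have h6 : ((e j).1 : ℕ) = ((e j').1 : ℕ) := pow_right_injective₀ (by linarith) hd'.ne' h5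
    have h7 : (e j).1 = (e j').1 := Subtype.ext h6
    obtain ⟨t, ht⟩ := hy1 (e j').1
    have h8 := congrFun h4 t
    rw [h7] at h8
    simp only [ht, map_one, Pi.smul_apply, smul_eq_mul, mul_one] at h8
    have h9 : (e j).2 = (e j').2 := by
      apply hyτ (e j').1 M
      intro s
      have h10 := congrFun h4 s
      rw [h7, ← h8, one_smul] at h10
      exact h10
    exact Prod.ext h7 h9
  · intro j
    have h1 : canH F d (fun s => (e j).2 (y (e j).1 s)) = _ := hH (e j).1 (e j).2
    refine (le_of_eq h1).trans ?_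
    have h2 := (Finset.mem_filter.mp (e j).1.2).1
    refine (hT _ (Finset.mem_range.mp h2)).trans ?_
    apply one_div_le_one_div_of_le
    · have : (0 : ℝ) < finrank K M := by exact_mod_cast finrank_pos_inter (K := K) M
      positivity
    · apply mul_le_mul_of_nonneg_left _ hC.le
      exact_mod_cast finrank_le_inter (K := K) M

/-- the number of different fields of definition of the iterates -/
def lev (k : Type) {K L : Type} [Field K] [Field k] [Field L] [Algebra K L] [Algebra k L] {N : ℕ}
    (F : Fin (N + 1) → MvPolynomial (Fin (N + 1)) K) (x : Fin (N + 1) → L) : ℕ :=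
  (Set.range fun i : ℕ => fod k ((act F)^[i] x)).ncard

lemma fd_inter (k L : Type) [Field k] [NumberField k] [Field L] [NumberField L] [Algebra k L] :
    FiniteDimensional k L := by
  have : FiniteDimensional ℚ L := inferInstance
  exact FiniteDimensional.right ℚ k L

/-- the lower bound, from a bound for the levels -/
theorem lower {F : Fin (N + 1) → MvPolynomial (Fin (N + 1)) K} {d a : ℕ} {A : ℝ}
    (h : Bds F d A a) (hd : 2 ≤ d) (hF : ∀ i, (F i).IsHomogeneous d)
    {C : ℝ} (hC : 0 < C) {Φ : ℝ → ℝ} (hfew : Few F d C Φ) {x : Fin (N + 1) → L} (hx : x ≠ 0)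
    (hpos : 0 < canH F d x) {Q : ℝ} (hQ : 0 ≤ Q)
    (hlev : ∀ i : ℕ, ∃ M : IntermediateField k L,
      0 < Nat.card (fod k ((act F)^[i] x) →ₐ[k] M) ∧
      Φ (finrank K M) ≤ Q * Nat.card (fod k ((act F)^[i] x) →ₐ[k] M)) :
    Real.exp (-(lev k F x * (C * Q) * Real.log d +
      Real.log (C * finrank K L))) ≤ canH F d x := by
  classical
  have hfd : FiniteDimensional k L := fd_inter k L
  have hfinI : Finite (IntermediateField k L) := finite_inter
  by_contra hcon
  push Not at hcon
  set W : ℝ := lev k F x * (C * Q) with hW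
  have hW0 : 0 ≤ W := by positivity
  set T := ⌊W⌋₊ + 1 with hTdef
  have hd' : (2 : ℝ) ≤ d := by exact_mod_cast hd
  have hd0 : (0 : ℝ) < d := by linarith
  have hld : 0 ≤ Real.log d := Real.log_nonneg (by linarith)
  have hKL : (0 : ℝ) < finrank K L := by
    have h1 := finrank_pos_inter (K := K) (⊤ : IntermediateField k L)
    have h2 := finrank_le_inter (K := K) (⊤ : IntermediateField k L)
    exact_mod_cast lt_of_lt_of_le h1 h2
  have hT : ∀ i < T, (d : ℝ) ^ i * canH F d x ≤ 1 / (C * (finrank K L : ℝ)) := by
    intro i hi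
    have h1 : (i : ℝ) ≤ W := by
      have h2 : i ≤ ⌊W⌋₊ := Nat.lt_succ_iff.mp hi
      exact (show (i : ℝ) ≤ ⌊W⌋₊ by exact_mod_cast h2).trans (Nat.floor_le hW0)
    have h2 : (d : ℝ) ^ i ≤ Real.exp (W * Real.log d) := by
      rw [← Real.rpow_natCast, Real.rpow_def_of_pos hd0]
      apply Real.exp_le_exp.mpr
      rw [mul_comm]
      exact mul_le_mul_of_nonneg_right h1 hld
    calc (d : ℝ) ^ i * canH F d x ≤ Real.exp (W * Real.log d) *
          Real.exp (-(W * Real.log d + Real.log (C * finrank K L))) :=
            mul_le_mul h2 hcon.le hpos.le (Real.exp_nonneg _)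
      _ = Real.exp (-Real.log (C * finrank K L)) := by
          rw [← Real.exp_add]
          congr 1
          ring
      _ = 1 / (C * (finrank K L : ℝ)) := by
          rw [Real.exp_neg, Real.exp_log (by positivity), one_div]
  set f : ℕ → IntermediateField k L := fun i => fod k ((act F)^[i] x) with hf
  have hchain : ((Finset.range T).image f).card ≤ lev k F x := by
    rw [← Set.ncard_coe_finset]
    apply Set.ncard_le_ncard _ (Set.toFinite _)
    intro E hE
    rw [Finset.mem_coe, Finset.mem_image] at hE
    obtain ⟨i, _, rfl⟩ := hE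
    exact ⟨i, rfl⟩
  have hsum : T = ∑ E ∈ (Finset.range T).image f, ((Finset.range T).filter fun i => f i = E).card := by
    conv_lhs => rw [← Finset.card_range T]
    exact Finset.card_eq_sum_card_fiberwise (fun i hi => Finset.mem_image_of_mem f hi)
  have hle : ∀ E ∈ (Finset.range T).image f,
      ((((Finset.range T).filter fun i => f i = E).card : ℕ) : ℝ) ≤ C * Q := by
    intro E hE
    obtain ⟨i₀, _, rfl⟩ := Finset.mem_image.mp hE
    obtain ⟨M, hM0, hM⟩ := hlev i₀
    have h1 := level_count h hd hF hC hfew hx hpos T hT (f i₀) M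
    have h2 : (0 : ℝ) < Nat.card (f i₀ →ₐ[k] M) := by exact_mod_cast hM0
    have h3 : ((((Finset.range T).filter fun i => f i = f i₀).card : ℕ) : ℝ) *
        (Nat.card (f i₀ →ₐ[k] M) : ℝ) ≤ (C * Q) * (Nat.card (f i₀ →ₐ[k] M) : ℝ) := by
      refine h1.trans ?_
      rw [mul_assoc]
      exact mul_le_mul_of_nonneg_left hM hC.le
    exact le_of_mul_le_mul_right h3 h2
  have hTW : (T : ℝ) ≤ W := by
    have h1 : (T : ℝ) = ∑ E ∈ (Finset.range T).image f,
        ((((Finset.range T).filter fun i => f i = E).card : ℕ) : ℝ) := by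
      exact_mod_cast hsum
    rw [h1]
    calc ∑ E ∈ (Finset.range T).image f,
          ((((Finset.range T).filter fun i => f i = E).card : ℕ) : ℝ) ≤
          ∑ _E ∈ (Finset.range T).image f, C * Q := Finset.sum_le_sum hle
      _ = (((Finset.range T).image f).card : ℝ) * (C * Q) := by
          rw [Finset.sum_const, nsmul_eq_mul]
      _ ≤ W := by
          rw [hW]
          apply mul_le_mul_of_nonneg_right _ (by positivity)
          exact_mod_cast hchain
  have h1 := Nat.lt_floor_add_one W
  rw [hTdef] at hTW
  push_cast at hTW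
  linarith

end count

end

end Pool.Agent.R829.DL
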