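import Mathlib
import Pool.Agent.W238.Leh.Count
import Pool.Agent.W238.Leh.Expo
import Pool.Agent.W238.Leh.Final

/-!
The number of points of small canonical height on the projective line: `C * D * (1 + log D)`.
(The region estimate is the one of `Pool.Agent.W238.Leh.Region`, with the growth of the Hilbert
function as a hypothesis.)
-/

set_option autoImplicit false
set_option linter.unusedSectionVars false

namespace Pool.Agent.R829.DL

open NumberField Module MvPolynomial Filter Topology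
open Pool.Agent.W238.Leh

noncomputable section

variable {K : Type} [Field K] [NumberField K] {N : ℕ}
variable {L : Type} [Field L] [NumberField L] [Algebra K L]
variable {F : Fin (N + 1) → MvPolynomial (Fin (N + 1)) K} {d a c : ℕ} {A : ℝ}

/-- **points of small height in a small region**: the growth of the Hilbert function up to a
large degree is bounded -/
theorem region_growth (h : Bds F d A a) (hd : 2 ≤ d) (hF : ∀ i, (F i).IsHomogeneous d)
    (hc : ∀ m, c + d ≤ m → ∀ p : MvPolynomial (Fin (N + 1)) K, p.IsHomogeneous m →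
      p ∈ Ideal.span (Set.range F))
    {κ : ℝ}
    {ρ : ℝ} (hρ : 0 < ρ) (hρ1 : ρ < 1)
    (hρA : Real.log A + Real.log (2 * A) + 1 ≤ κ * Real.log (1 / ρ))
    (w₀ : InfinitePlace L) (cc : Fin (N + 1) → ℂ) (hcc : ∀ t, ‖cc t‖ ≤ 1) (a₀ : Fin (N + 1))
    {ι : Type*} [Fintype ι] (p : ι → Fin (N + 1) → L)
    (hp : ∀ i, p i a₀ = 1) (hpc : ∀ i t, ‖w₀.embedding (p i t) - cc t‖ ≤ ρ)
    (hH : ∀ i, canH F d (p i) ≤ 1 / (2 * (finrank ℚ L : ℝ)))
    {m : ℕ} (hm1 : 1 ≤ m) (hr1 : 1 ≤ finrank L (EL K p m))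
    (hgr : κ * (m * finrank L (EL K p m)) ≤
      ((∑ k ∈ Finset.range m, (finrank L (EL K p m) - finrank L (EL K p k)) : ℕ) : ℝ)) :
    (m : ℝ) / 2 ≤ (finrank ℚ L : ℝ) * (hC A a * ((c + d : ℕ) * (1 + Nat.log 2 m : ℕ)) +
      N * Real.log (m + 1)) := by
  by_contra hm
  push Not at hm
  have hA := h.hA
  have hD := finrank_pos' (L := L)
  set r := finrank L (EL K p m) with hr
  have hrN : r ≤ (m + 1) ^ N := finrank_EL_le hp m
  obtain ⟨l, hl1, hl2, hl3, hl4⟩ := exists_list (c := c) hd m
  have hspan := EL_le_span hF hc p l hl2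
  rw [hl1] at hspan
  obtain ⟨φv, hφt, hφli⟩ := exists_indep (L := L)
    {v : ι → L | ∃ φ ∈ GG F l, v = fun i => aeval (p i) φ} (Submodule.finrank_mono hspan)
  choose φ hφG hφe using hφt
  obtain ⟨e, he⟩ := exists_minor φv hφli
  have hM : (Matrix.of fun j k => φv j (e k)) =
      (Matrix.of fun j k => aeval (p (e k)) (φ j)) := by
    ext j k
    simp only [Matrix.of_apply]
    rw [hφe j]
  rw [hM] at he
  set M : Matrix (Fin r) (Fin r) L := Matrix.of fun j k => aeval (p (e k)) (φ j) with hMdef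
  have hp0 : ∀ i, p i ≠ 0 := by
    intro i h0
    have := hp i
    rw [h0] at this
    simp at this
  have hiter : ∀ i j, (act F)^[j] (p i) ≠ 0 := fun i j => h.iter_ne_zero (hp0 i) j
  -- local bounds
  have hwtpos : ∀ (w : InfinitePlace L) k, 0 < wt (nmi w) (act F) l (p (e k)) :=
    fun w k => wt_pos l fun j => nmi_pos w (hiter _ j)
  have hwtposf : ∀ (v : FinitePlace L) k, 0 < wt (nmf v) (act F) l (p (e k)) :=
    fun v k => wt_pos l fun j => nmf_pos v (hiter _ j)
  have hinf : ∀ w : InfinitePlace L, Real.log (w M.det) ≤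
      ∑ k, Real.log (wt (nmi w) (act F) l (p (e k))) + Real.log r.factorial := by
    intro w
    have h1 : w M.det ≤ r.factorial * ∏ k, wt (nmi w) (act F) l (p (e k)) := by
      apply det_le_inf
      intro j k
      exact abs_le_wt (w.1.toMonoidWithZeroHom) (fun x => w.1.nonneg x)
        (fun x j => le_nmi w x j) (fun x => nmi_nonneg w x) l (hφG j) (p (e k))
    have h2 : 0 < w M.det := InfinitePlace.pos_iff.mpr he
    have h3 := Real.log_le_log h2 h1
    rw [Real.log_mul (by positivity) (Finset.prod_pos fun k _ => hwtpos w k).ne',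
      Real.log_prod (fun k _ => (hwtpos w k).ne')] at h3
    linarith
  have hfin : ∀ v : FinitePlace L, Real.log (v M.det) ≤
      ∑ k, Real.log (wt (nmf v) (act F) l (p (e k))) := by
    intro v
    have h1 : v M.det ≤ ∏ k, wt (nmf v) (act F) l (p (e k)) := by
      apply det_le_fin v _ _ (fun k => (hwtposf v k).le)
      intro j k
      exact abs_le_wt (v.1.toMonoidWithZeroHom) (fun x => v.1.nonneg x)
        (fun x j => le_nmf v x j) (fun x => nmf_nonneg v x) l (hφG j) (p (e k))
    have h2 : 0 < v M.det := FinitePlace.pos_iff.mpr he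
    have h3 := Real.log_le_log h2 h1
    rwa [Real.log_prod (fun k _ => (hwtposf v k).ne')] at h3
  -- the special place
  have hw₀ : Real.log (w₀ M.det) ≤ ∑ k, Real.log (wt (nmi w₀) (act F) l (p (e k))) +
      Real.log r.factorial - r * m := by
    set T := ∑ k ∈ Finset.range m, (r - finrank ℂ (EC w₀.embedding
      (EL K (fun j => p (e j)) k))) with hT
    have hTge : κ * (m * r) ≤ (T : ℝ) := by
      refine hgr.trans ?_
      have : ∑ k ∈ Finset.range m, (r - finrank L (EL K p k)) ≤ T := by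
        refine Finset.sum_le_sum fun k _ => ?_
        have h1 := finrank_EC_le w₀.embedding (EL K (fun j => p (e j)) k)
        have h2 := finrank_EL_comp (K := K) p e k
        omega
      exact_mod_cast this
    have h1 := det_small (filt_EC (K := K) w₀.embedding (p := fun j => p (e j))
      (a₀ := a₀) (fun i => hp _)) (c := cc) hρ hρ1 (fun i t => hpc (e i) t) hcc
      (fun j => map (bemb K w₀) (φ j)) (B := (2 * A) ^ m) (by
        intro j y hy
        rw [eval_map]
        have h2 := h.GG_complex hd (bemb K w₀) l (hφG j) y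
        rw [hl1] at h2
        refine h2.trans (pow_le_pow_left₀ (by positivity) ?_ _)
        have h3 : ‖y‖ ≤ 2 := (pi_norm_le_iff_of_nonneg (by norm_num)).mpr hy
        nlinarith) m
    rw [← hT] at h1
    have h2 : ‖(Matrix.of fun j i => MvPolynomial.eval (fun t => w₀.embedding (p (e i) t))
        (map (bemb K w₀) (φ j))).det‖ = w₀ M.det := by
      rw [← InfinitePlace.norm_embedding_eq, RingHom.map_det]
      congr 2
      ext j i
      simp only [Matrix.of_apply, RingHom.mapMatrix_apply, Matrix.map_apply, hMdef]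
      rw [eval_map]
      exact eval_cvec w₀ (p (e i)) (φ j)
    rw [h2] at h1
    have h3 : 0 < w₀ M.det := InfinitePlace.pos_iff.mpr he
    have h4 := Real.log_le_log h3 h1
    rw [Real.log_mul (by positivity) (by positivity), Real.log_mul (by positivity)
      (by positivity), Real.log_pow, Real.log_pow, Real.log_pow] at h4
    have h5 : ∀ k, -(m * Real.log A) ≤ Real.log (wt (nmi w₀) (act F) l (p (e k))) := by
      intro k
      have h6 := le_wt hd hA (fun y => nmi_nonneg w₀ y) (fun x => h.loi w₀ x) l (p (e k))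
      rw [hl1] at h6
      have h7 : 1 ≤ nmi w₀ (p (e k)) := by
        have h8 := le_nmi w₀ (p (e k)) a₀
        rw [hp] at h8
        have h9 : w₀ (1 : L) = 1 := by
          rw [← InfinitePlace.norm_embedding_eq, map_one, norm_one]
        rwa [h9] at h8
      have h8 : 1 ≤ A ^ m * wt (nmi w₀) (act F) l (p (e k)) :=
        (one_le_pow₀ h7).trans h6
      have h9 := Real.log_le_log one_pos h8
      rw [Real.log_one, Real.log_mul (by positivity) (hwtpos w₀ k).ne', Real.log_pow] at h9
      linarith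
    have h6 : -(r * (m * Real.log A)) ≤ ∑ k, Real.log (wt (nmi w₀) (act F) l (p (e k))) := by
      have h7 := Finset.sum_le_sum (fun k (_ : k ∈ (Finset.univ : Finset (Fin r))) => h5 k)
      rw [Finset.sum_const, Finset.card_univ, Fintype.card_fin, nsmul_eq_mul] at h7
      linarith
    have h7 : (T : ℝ) * Real.log ρ ≤ -(r * m * (Real.log A + Real.log (2 * A) + 1)) := by
      have h8 : Real.log ρ = -Real.log (1 / ρ) := by
        rw [one_div, Real.log_inv, neg_neg]
      have h9 : 0 ≤ Real.log (1 / ρ) := by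
        apply Real.log_nonneg
        rw [le_div_iff₀ hρ]
        linarith
      have h10 : (r * m : ℝ) * (Real.log A + Real.log (2 * A) + 1) ≤ T * Real.log (1 / ρ) := by
        calc (r * m : ℝ) * (Real.log A + Real.log (2 * A) + 1) ≤
            (r * m) * (κ * Real.log (1 / ρ)) :=
              mul_le_mul_of_nonneg_left hρA (by positivity)
          _ = (κ * (m * r)) * Real.log (1 / ρ) := by ring
          _ ≤ T * Real.log (1 / ρ) := mul_le_mul_of_nonneg_right hTge h9
      rw [h8]
      linarith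
    have h11 : (r : ℝ) * (m * Real.log (2 * A)) = r * m * Real.log (2 * A) := by ring
    nlinarith [h4, h6, h7]
  -- the product formula
  have hgs1 : HasGS (fun w => ∑ k, Real.log (wt (nmi w) (act F) l (p (e k))))
      (fun v => ∑ k, Real.log (wt (nmf v) (act F) l (p (e k)))) (∑ k, HL F l (p (e k))) :=
    HasGS.sum Finset.univ fun k _ => HasGS.wt l (hiter (e k))
  have hmain := (HasGS.prod he).le_gain hgs1 (c := Real.log r.factorial) (g := r * m)
    (by positivity) hinf w₀ hw₀ hfin
  have hHL : ∀ k, HL F l (p (e k)) ≤ m / 2 + finrank ℚ L *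
      (hC A a * ((c + d : ℕ) * (1 + Nat.log 2 m : ℕ))) := by
    intro k
    refine (h.HL_le hd l (hp0 (e k))).trans ?_
    rw [hl1, mul_add]
    have h1 : (finrank ℚ L : ℝ) * (m * canH F d (p (e k))) ≤ m / 2 := by
      have h2 := mul_le_mul_of_nonneg_left (hH (e k))
        (show (0 : ℝ) ≤ (finrank ℚ L : ℝ) * m by positivity)
      calc _ = (finrank ℚ L : ℝ) * m * canH F d (p (e k)) := by ring
        _ ≤ _ := h2
        _ = m / 2 := by field_simp
    have h2 : (l.sum : ℝ) ≤ (c + d : ℕ) * (1 + Nat.log 2 m : ℕ) := by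
      have h3 : l.sum ≤ l.length * (c + d) := by
        have := List.sum_le_card_nsmul l (c + d) hl3
        simpa using this
      have h4 : l.length * (c + d) ≤ (c + d) * (1 + Nat.log 2 m) := by
        rw [mul_comm]
        exact Nat.mul_le_mul_left _ hl4
      exact_mod_cast h3.trans h4
    have h3 : (finrank ℚ L : ℝ) * (hC A a * l.sum) ≤
        finrank ℚ L * (hC A a * ((c + d : ℕ) * (1 + Nat.log 2 m : ℕ))) :=
      mul_le_mul_of_nonneg_left (mul_le_mul_of_nonneg_left h2 h.hC_nonneg) hD.le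
    linarith
  have hsum : ∑ k, HL F l (p (e k)) ≤ r * (m / 2 + finrank ℚ L *
      (hC A a * ((c + d : ℕ) * (1 + Nat.log 2 m : ℕ)))) := by
    have h7 := Finset.sum_le_sum (fun k (_ : k ∈ (Finset.univ : Finset (Fin r))) => hHL k)
    rwa [Finset.sum_const, Finset.card_univ, Fintype.card_fin, nsmul_eq_mul] at h7
  have hlf := log_factorial_le (N := N) hr1 hrN
  have hr0 : (0 : ℝ) < r := by exact_mod_cast hr1
  have h8 := mul_le_mul_of_nonneg_left hlf hD.le
  have h9 := mul_lt_mul_of_pos_left hm hr0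
  nlinarith [hmain, hsum, h8, h9]

/-- the growth of the Hilbert function on the projective line -/
lemma growth_line {K : Type} [Field K] [NumberField K] {L : Type} [Field L] [NumberField L]
    [Algebra K L] {ι : Type*} [Fintype ι] {p : ι → Fin (1 + 1) → L} {a₀ : Fin (1 + 1)}
    (hp : ∀ i, p i a₀ = 1) (hinj : Function.Injective p) {m : ℕ} (hm : Fintype.card ι = m + 1) :
    finrank L (EL K p m) = m + 1 ∧ (1 / 2 : ℝ) * (m * finrank L (EL K p m)) ≤
      ((∑ k ∈ Finset.range m, (finrank L (EL K p m) - finrank L (EL K p k)) : ℕ) : ℝ) := by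
  have h1 : finrank L (EL K p m) = m + 1 := by
    apply le_antisymm
    · have := finrank_EL_le (K := K) hp m
      rwa [pow_one] at this
    · have := le_finrank_EL (K := K) hp hinj m
      rwa [hm, min_self] at this
  refine ⟨h1, ?_⟩
  rw [h1]
  have h2 : ∑ k ∈ Finset.range m, (m - k) ≤
      ∑ k ∈ Finset.range m, (m + 1 - finrank L (EL K p k)) := by
    refine Finset.sum_le_sum fun k _ => ?_
    have := finrank_EL_le (K := K) hp k
    rw [pow_one] at this
    omega
  have h3 : (∑ k ∈ Finset.range m, (m - k)) * 2 = (m + 1) * m := by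
    have h4 : ∑ k ∈ Finset.range m, (m - k) = ∑ k ∈ Finset.range m, (k + 1) := by
      rw [← Finset.sum_range_reflect (fun j => j + 1) m]
      refine Finset.sum_congr rfl fun k hk => ?_
      have := Finset.mem_range.mp hk
      omega
    have h5 : ∑ k ∈ Finset.range m, (k + 1) = ∑ k ∈ Finset.range (m + 1), k := by
      rw [Finset.sum_range_succ']
      simp
    rw [h4, h5, Finset.sum_range_id_mul_two]
    simp
  have h6 : ((∑ k ∈ Finset.range m, (m - k) : ℕ) : ℝ) * 2 = ((m : ℝ) + 1) * m := by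
    exact_mod_cast h3
  have h7 : ((∑ k ∈ Finset.range m, (m - k) : ℕ) : ℝ) ≤
      ((∑ k ∈ Finset.range m, (m + 1 - finrank L (EL K p k)) : ℕ) : ℝ) := by exact_mod_cast h2
  push_cast at h6 h7 ⊢
  linarith

/-- **count over all regions, on the projective line** -/
theorem count_line {K : Type} [Field K] [NumberField K]
    {F : Fin (1 + 1) → MvPolynomial (Fin (1 + 1)) K} {d a c : ℕ} {A : ℝ}
    (h : Bds F d A a) (hd : 2 ≤ d) (hF : ∀ i, (F i).IsHomogeneous d)
    (hc : ∀ m, c + d ≤ m → ∀ p : MvPolynomial (Fin (1 + 1)) K, p.IsHomogeneous m →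
      p ∈ Ideal.span (Set.range F)) :
    ∃ R : ℕ, ∀ (L : Type) [Field L] [NumberField L] [Algebra K L] (m₀ : ℕ), 1 ≤ m₀ →
    (∀ m : ℕ, m₀ ≤ m → (finrank ℚ L : ℝ) * (hC A a * ((c + d : ℕ) * (1 + Nat.log 2 m : ℕ)) +
      (1 : ℕ) * Real.log (m + 1)) < m / 2) →
    ∀ (n : ℕ) (x : Fin n → Fin (1 + 1) → L), (∀ i, x i ≠ 0) →
      (∀ i j, i ≠ j → ∀ b : L, x i ≠ b • x j) →
      (∀ i, canH F d (x i) ≤ 1 / (2 * (finrank ℚ L : ℝ))) → n ≤ R * m₀ := by
  classical
  set κ : ℝ := 1 / 2 with hκ
  have hκ0 : 0 < κ := by positivity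
  have hA := h.hA
  set V := (Real.log A + Real.log (2 * A) + 1) / κ with hV
  have hlA : 0 ≤ Real.log A := Real.log_nonneg hA
  have hlA2 : 0 ≤ Real.log (2 * A) := Real.log_nonneg (by linarith)
  have hV0 : 0 < V := by positivity
  set ρ := Real.exp (-V) with hρdef
  have hρ : 0 < ρ := Real.exp_pos _
  have hρ1 : ρ < 1 := by
    rw [hρdef, Real.exp_lt_one_iff]
    linarith
  have hρA : Real.log A + Real.log (2 * A) + 1 ≤ κ * Real.log (1 / ρ) := by
    rw [one_div, Real.log_inv, hρdef, Real.log_exp, neg_neg, hV]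
    rw [mul_div_cancel₀ _ hκ0.ne']
  obtain ⟨Z, hZ1, hZ2⟩ := exists_net hρ
  refine ⟨(1 + 1) * Z.card ^ (1 + 1), ?_⟩
  intro L _ _ _ m₀ hm₀ hm n x hx0 hxne hxH
  obtain ⟨w₀⟩ : Nonempty (InfinitePlace L) := inferInstance
  -- the coordinate of largest size
  have hmax : ∀ i, ∃ t, w₀ (x i t) = nmi w₀ (x i) := by
    intro i
    obtain ⟨t, ht⟩ := exists_eq_ciSup_of_finite (f := fun t => w₀ (x i t))
    exact ⟨t, ht⟩
  choose t₀ ht₀ using hmax
  have hxt : ∀ i, x i (t₀ i) ≠ 0 := by
    intro i h0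
    have := nmi_pos w₀ (hx0 i)
    rw [← ht₀ i, h0] at this
    simp at this
  set p : Fin n → Fin (1 + 1) → L := fun i => (x i (t₀ i))⁻¹ • x i with hp
  have hp1 : ∀ i, p i (t₀ i) = 1 := by
    intro i
    simp only [hp, Pi.smul_apply, smul_eq_mul]
    exact inv_mul_cancel₀ (hxt i)
  have hple : ∀ i t, ‖w₀.embedding (p i t)‖ ≤ 1 := by
    intro i t
    rw [InfinitePlace.norm_embedding_eq]
    simp only [hp, Pi.smul_apply, smul_eq_mul]
    rw [map_mul, map_inv₀, ht₀ i]
    rw [inv_mul_le_iff₀ (nmi_pos w₀ (hx0 i)), mul_one]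
    exact le_nmi _ _ _
  have hz : ∀ i t, ∃ z' : Z, ‖w₀.embedding (p i t) - z'‖ ≤ ρ := by
    intro i t
    obtain ⟨z', hz', h1⟩ := hZ2 _ (hple i t)
    exact ⟨⟨z', hz'⟩, h1⟩
  choose ζ hζ using hz
  set f : Fin n → Fin (1 + 1) × (Fin (1 + 1) → Z) := fun i => (t₀ i, ζ i) with hf
  by_contra hcon
  push Not at hcon
  have hcard : Fintype.card (Fin (1 + 1) × (Fin (1 + 1) → Z)) * m₀ < Fintype.card (Fin n) := by
    rw [Fintype.card_prod, Fintype.card_fin, Fintype.card_fun, Fintype.card_fin, Fintype.card_coe,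
      Fintype.card_fin]
    exact hcon
  obtain ⟨y, hy⟩ := Fintype.exists_lt_card_fiber_of_mul_lt_card f hcard
  set S := (Finset.univ.filter fun i => f i = y) with hS
  have hSf : ∀ i : S, t₀ i = y.1 ∧ ζ i = y.2 := by
    intro i
    have h1 := (Finset.mem_filter.mp i.2).2
    simp only [hf] at h1
    exact ⟨congrArg Prod.fst h1, congrArg Prod.snd h1⟩
  have hSc : Fintype.card S = (S.card - 1) + 1 := by
    rw [Fintype.card_coe]
    omega
  have hinj : Function.Injective (fun i : S => p i) := by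
    intro i j hij
    by_contra hne
    have hne' : (i : Fin n) ≠ j := fun h => hne (Subtype.ext h)
    apply hxne i j hne' (x i (t₀ i) * (x j (t₀ j))⁻¹)
    have h1 : x i (t₀ i) • p i = x i (t₀ i) • p j := by
      simp only at hij
      rw [hij]
    have h2 : x i (t₀ i) • p i = x i := by
      simp only [hp]
      rw [smul_smul, mul_inv_cancel₀ (hxt i), one_smul]
    rw [h2] at h1
    refine h1.trans ?_
    simp only [hp]
    rw [smul_smul]
  have hpS : ∀ i : S, p i y.1 = 1 := by
    intro i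
    have h1 := hp1 i
    rw [(hSf i).1] at h1
    exact h1
  obtain ⟨hg1, hg2⟩ := growth_line (K := K) hpS hinj hSc
  have hreg := region_growth h hd hF hc hρ hρ1 hρA w₀ (fun t => (y.2 t : ℂ))
    (fun t => hZ1 _ (y.2 t).2) y.1 (ι := S) (fun i => p i) hpS ?_ ?_ (m := S.card - 1)
    (by omega) (by rw [hg1]; omega) hg2
  · have h2 := hm (S.card - 1) (by omega)
    exact absurd h2 (not_lt.mpr hreg)
  · intro i t
    have h1 := hζ i t
    rw [(hSf i).2] at h1
    exact h1
  · intro i
    have h1 := canH_smul hF (inv_ne_zero (hxt i)) (x i)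
    change canH F d (p i) ≤ _
    rw [show p i = (x i (t₀ i))⁻¹ • x i from rfl, h1]
    exact hxH i

/-- choice of the parameters -/
lemma exists_m0_line (k₀ E₁ E₂ : ℝ) (hk₀ : 1 ≤ k₀) (hE₁ : 0 ≤ E₁) (hE₂ : 0 ≤ E₂) :
    ∃ C₂ : ℝ, 1 ≤ C₂ ∧ ∀ D : ℝ, 1 ≤ D → ∃ m₀ : ℕ, 1 ≤ m₀ ∧
      ((m₀ : ℝ) ≤ C₂ * (D * (1 + Real.log D))) ∧
      ∀ m : ℕ, m₀ ≤ m →
        (k₀ * D) * (E₁ * ((1 + Nat.log 2 m : ℕ) : ℝ) + E₂ * Real.log (m + 1)) < m / 2 := by
  set C₃ : ℝ := 2 * E₁ + E₂ with hC₃
  have hC₃0 : 0 ≤ C₃ := by positivity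
  set B : ℝ := 2 * k₀ * C₃ + 1 with hB
  have hB1 : 1 ≤ B := by
    have : 0 ≤ 2 * k₀ * C₃ := by positivity
    linarith
  set G : ℝ := (4 * B) ^ 2 with hG
  have hG0 : 0 < G := by positivity
  have hlG : Real.log G ≤ 8 * B - 2 := by
    rw [hG, Real.log_pow]
    have := Real.log_le_sub_one_of_pos (show 0 < 4 * B by positivity)
    push_cast
    linarith
  have herr : ∀ m : ℕ, 1 ≤ m →
      E₁ * ((1 + Nat.log 2 m : ℕ) : ℝ) + E₂ * Real.log (m + 1) ≤ C₃ * (1 + Real.log m) := by
    intro m hm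
    have hm1 : (1 : ℝ) ≤ m := by exact_mod_cast hm
    have h5 : 0 ≤ Real.log m := Real.log_nonneg hm1
    have h1 : ((Nat.log 2 m : ℕ) : ℝ) ≤ 2 * Real.log m := by
      have h2 : ((Nat.log 2 m : ℕ) : ℝ) ≤ Real.logb 2 m := Real.natLog_le_logb m 2
      refine h2.trans ?_
      rw [Real.logb, div_le_iff₀ (Real.log_pos (by norm_num))]
      have h4 : (1 : ℝ) / 2 ≤ Real.log 2 := by
        have := Real.log_two_gt_d9
        linarith
      nlinarith
    have h2 : Real.log (m + 1) ≤ 1 + Real.log m := by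
      have h3 : Real.log (m + 1) ≤ Real.log (2 * m) :=
        Real.log_le_log (by linarith) (by linarith)
      rw [Real.log_mul (by norm_num) (by linarith)] at h3
      have := Real.log_two_lt_d9
      linarith
    push_cast
    calc E₁ * (1 + (Nat.log 2 m : ℝ)) + E₂ * Real.log (m + 1) ≤
        E₁ * (2 * (1 + Real.log m)) + E₂ * (1 + Real.log m) := by gcongr; linarith
      _ = C₃ * (1 + Real.log m) := by rw [hC₃]; ring
  refine ⟨G + 1, by linarith, fun D hD => ?_⟩
  have hlD : 0 ≤ Real.log D := Real.log_nonneg hD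
  set t₀ : ℝ := G * (D * (1 + Real.log D)) with ht₀
  have hDD : 1 ≤ D * (1 + Real.log D) := by nlinarith
  have ht0 : 0 < t₀ := by positivity
  refine ⟨⌈t₀⌉₊, ?_, ?_, ?_⟩
  · rw [Nat.one_le_ceil_iff]
    exact ht0
  · have h1 := (Nat.ceil_lt_add_one ht0.le).le
    calc (⌈t₀⌉₊ : ℝ) ≤ t₀ + 1 := h1
      _ ≤ (G + 1) * (D * (1 + Real.log D)) := by rw [ht₀]; nlinarith
  · intro m hm
    have hm' : t₀ ≤ m := (Nat.le_ceil _).trans (by exact_mod_cast hm)
    have hm0 : (0 : ℝ) < m := lt_of_lt_of_le ht0 hm'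
    have hm1' : 1 ≤ m := by exact_mod_cast (show 0 < m by exact_mod_cast hm0)
    have hlt : Real.log t₀ ≤ 8 * B - 2 + 2 * Real.log D := by
      rw [ht₀, Real.log_mul hG0.ne' (by positivity), Real.log_mul (by linarith) (by linarith)]
      have h1 : Real.log (1 + Real.log D) ≤ Real.log D := by
        apply Real.log_le_log (by linarith)
        have := Real.log_le_sub_one_of_pos (show 0 < D by linarith)
        linarith
      linarith
    have hlm : Real.log m ≤ Real.log t₀ + (m / t₀ - 1) := by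
      have h1 := Real.log_le_sub_one_of_pos (show 0 < (m : ℝ) / t₀ by positivity)
      rw [Real.log_div hm0.ne' ht0.ne'] at h1
      linarith
    have hBD : B * D * (1 + Real.log t₀) ≤ t₀ / 2 := by
      have h1 : 1 + Real.log t₀ ≤ 8 * B * (1 + Real.log D) := by nlinarith
      calc B * D * (1 + Real.log t₀) ≤ B * D * (8 * B * (1 + Real.log D)) :=
            mul_le_mul_of_nonneg_left h1 (by positivity)
        _ = t₀ / 2 := by rw [ht₀, hG]; ring
    have hBD2 : B * D ≤ t₀ := by
      rw [ht₀, hG]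
      have h1 : B ≤ (4 * B) ^ 2 := by nlinarith
      have h2 : D ≤ D * (1 + Real.log D) := by nlinarith
      exact mul_le_mul h1 h2 (by linarith) (by positivity)
    have hkey : B * D * (1 + Real.log m) ≤ m := by
      have h1 : B * D * (1 + Real.log m) ≤ B * D * (1 + Real.log t₀ + (m / t₀ - 1)) :=
        mul_le_mul_of_nonneg_left (by linarith) (by positivity)
      have h2 : B * D * (m / t₀ - 1) ≤ t₀ * (m / t₀ - 1) := by
        apply mul_le_mul_of_nonneg_right hBD2
        rw [sub_nonneg, le_div_iff₀ ht0]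
        linarith
      have h3 : t₀ * (m / t₀ - 1) = m - t₀ := by
        field_simp
      calc B * D * (1 + Real.log m) ≤ B * D * (1 + Real.log t₀ + (m / t₀ - 1)) := h1
        _ = B * D * (1 + Real.log t₀) + B * D * (m / t₀ - 1) := by ring
        _ ≤ t₀ / 2 + (m - t₀) := by linarith
        _ ≤ m := by linarith
    have hlm0 : 0 ≤ Real.log m := Real.log_nonneg (by exact_mod_cast hm1')
    calc (k₀ * D) * (E₁ * ((1 + Nat.log 2 m : ℕ) : ℝ) + E₂ * Real.log (m + 1)) ≤
        (k₀ * D) * (C₃ * (1 + Real.log m)) := mul_le_mul_of_nonneg_left (herr m hm1') (by positivity)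
      _ = (2 * k₀ * C₃) * (D * (1 + Real.log m)) / 2 := by ring
      _ < B * (D * (1 + Real.log m)) / 2 := by
          have h1 : 0 < D * (1 + Real.log m) := by positivity
          have h2 : 2 * k₀ * C₃ < B := by linarith
          have := mul_lt_mul_of_pos_right h2 h1
          linarith
      _ ≤ m / 2 := by
          have : B * (D * (1 + Real.log m)) = B * D * (1 + Real.log m) := by ring
          linarith

/-- **the number of points of small height on the projective line over an extension of degree `D`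
is at most `C * D * (1 + log D)`** -/
theorem small_line {K : Type} [Field K] [NumberField K]
    {F : Fin (1 + 1) → MvPolynomial (Fin (1 + 1)) K} {d a c : ℕ} {A : ℝ}
    (h : Bds F d A a) (hd : 2 ≤ d) (hF : ∀ i, (F i).IsHomogeneous d)
    (hc : ∀ m, c + d ≤ m → ∀ p : MvPolynomial (Fin (1 + 1)) K, p.IsHomogeneous m →
      p ∈ Ideal.span (Set.range F)) :
    ∃ C : ℝ, 0 < C ∧ ∀ (L : Type) [Field L] [NumberField L] [Algebra K L]
      (n : ℕ) (x : Fin n → Fin (1 + 1) → L), (∀ i, x i ≠ 0) →
      (∀ i j, i ≠ j → ∀ b : L, x i ≠ b • x j) →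
      (∀ i, canH F d (x i) ≤ 1 / (C * (finrank K L : ℝ))) →
      (n : ℝ) ≤ C * ((finrank K L : ℝ) * (1 + Real.log (finrank K L))) := by
  obtain ⟨R, hR⟩ := count_line h hd hF hc
  set k₀ : ℝ := (finrank ℚ K : ℝ) with hk₀
  have hk1 : 1 ≤ k₀ := by
    rw [hk₀]
    exact_mod_cast (finrank_pos : 0 < finrank ℚ K)
  obtain ⟨C₂, hC₂, hm₀⟩ := exists_m0_line k₀ (hC A a * ((c + d : ℕ) : ℝ)) 1 hk1
    (mul_nonneg h.hC_nonneg (by positivity)) zero_le_one
  refine ⟨2 * k₀ + R * C₂, by positivity, fun L _ _ _ n x hx0 hxne hxH => ?_⟩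
  have hfin : (finrank ℚ L : ℝ) = k₀ * finrank K L := by
    rw [hk₀]
    exact_mod_cast (finrank_mul_finrank ℚ K L).symm
  have hDpos := finrank_pos' (L := L)
  have hD0 : 0 < finrank K L := by
    rcases Nat.eq_zero_or_pos (finrank K L) with h0 | h0
    · rw [hfin, h0] at hDpos
      simp at hDpos
    · exact h0
  have hD1 : (1 : ℝ) ≤ finrank K L := by exact_mod_cast hD0
  have hlD : 0 ≤ Real.log (finrank K L) := Real.log_nonneg hD1
  obtain ⟨m₀, hm1, hm2, hm3⟩ := hm₀ (finrank K L) hD1
  have h1 := hR L m₀ hm1 (by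
    intro m hm
    have h2 := hm3 m hm
    rw [← hfin] at h2
    calc _ = (finrank ℚ L : ℝ) * (hC A a * ((c + d : ℕ) : ℝ) * ((1 + Nat.log 2 m : ℕ) : ℝ) +
          1 * Real.log (m + 1)) := by push_cast; ring
      _ < _ := h2) n x hx0 hxne (by
    intro i
    refine (hxH i).trans ?_
    apply one_div_le_one_div_of_le (by positivity)
    rw [hfin]
    have : 0 ≤ (R : ℝ) * C₂ := by positivity
    nlinarith)
  have h2 : (n : ℝ) ≤ R * m₀ := by exact_mod_cast h1
  calc (n : ℝ) ≤ R * m₀ := h2
    _ ≤ R * (C₂ * (finrank K L * (1 + Real.log (finrank K L)))) :=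
        mul_le_mul_of_nonneg_left hm2 (by positivity)
    _ = (R * C₂) * (finrank K L * (1 + Real.log (finrank K L))) := by ring
    _ ≤ _ := by
        apply mul_le_mul_of_nonneg_right _ (by positivity)
        linarith

end

end Pool.Agent.R829.DL
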