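import Mathlib
import Pool.Agent.R829.DL.Lev
import Pool.Agent.R829.DL.Reg

/-!
Lower bounds for canonical heights over extensions with many automorphisms: assembly.
-/

set_option autoImplicit false
set_option linter.unusedSectionVars false

namespace Pool.Agent.R829.DL

open NumberField Module MvPolynomial Filter Topology
open Pool.Agent.W238.Leh

noncomputable section

lemma two_pow_omega_le {n : ℕ} (hn : n ≠ 0) : 2 ^ ArithmeticFunction.cardFactors n ≤ n := by
  rw [ArithmeticFunction.cardFactors_apply]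
  conv_rhs => rw [← Nat.prod_primeFactorsList hn]
  exact List.pow_card_le_prod _ _ fun p hp => (Nat.prime_of_mem_primeFactorsList hp).two_le

lemma omega_le_log {n : ℕ} (hn : n ≠ 0) :
    (ArithmeticFunction.cardFactors n : ℝ) ≤ 2 * Real.log n := by
  have h1 : ((2 : ℝ) ^ ArithmeticFunction.cardFactors n) ≤ n := by
    exact_mod_cast two_pow_omega_le hn
  have h2 := Real.log_le_log (by positivity) h1
  rw [Real.log_pow] at h2
  have h3 := Real.log_two_gt_d9
  have h4 : (0 : ℝ) ≤ ArithmeticFunction.cardFactors n := by positivity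
  nlinarith

/-- the bound of the theorem -/
def Bd (N : ℕ) (ε C R : ℝ) (D lv : ℕ) (h : ℝ) : Prop :=
  Real.exp (-(C * R * (D : ℝ) ^ ε)) ≤ h ∧
    (N = 1 → Real.exp (-(C * R * lv * (1 + Real.log D))) ≤ h)

section

variable {K k L : Type} [Field K] [NumberField K] [Field k] [NumberField k] [Field L]
  [NumberField L] [Algebra K k] [Algebra K L] [Algebra k L] [IsScalarTower K k L] {N : ℕ}

lemma finrank_mul_inter (M : IntermediateField k L) :
    finrank K k * finrank k M = finrank K M := by
  have h1 : FiniteDimensional K M := fd_inter K M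
  exact finrank_mul_finrank K k M

lemma lev_pos (F : Fin (N + 1) → MvPolynomial (Fin (N + 1)) K) (x : Fin (N + 1) → L) :
    1 ≤ lev k F x := by
  have hfd : FiniteDimensional k L := fd_inter k L
  have hfinI : Finite (IntermediateField k L) := finite_inter
  exact Nat.one_le_iff_ne_zero.mpr
    ((Set.ncard_pos (Set.toFinite _)).mpr (Set.range_nonempty _)).ne'

lemma lev_le {F : Fin (N + 1) → MvPolynomial (Fin (N + 1)) K} {d a : ℕ} {A : ℝ}
    (h : Bds F d A a) (hF : ∀ i, (F i).IsHomogeneous d) {x : Fin (N + 1) → L} (hx : x ≠ 0) :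
    lev k F x ≤ 1 + ArithmeticFunction.cardFactors (finrank k L) := by
  have hfd : FiniteDimensional k L := fd_inter k L
  exact ncard_chain _ (fun i j hij => fod_iter h hF hx hij)

lemma card_hom_le (E M : IntermediateField k L) :
    Nat.card (E →ₐ[k] M) ≤ finrank K M := by
  have hfdM : FiniteDimensional k M := fd_inter k M
  have hfdE : FiniteDimensional k E := fd_inter k E
  rcases Nat.eq_zero_or_pos (Nat.card (E →ₐ[k] M)) with h0 | h0
  · rw [h0]; exact Nat.zero_le _
  · obtain ⟨τ⟩ := (Nat.card_pos_iff.mp h0).1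
    have h1 : Nat.card (E →ₐ[k] M) ≤ finrank k E := card_algHom_le_finrank k E M
    have h2 : finrank k E ≤ finrank k M :=
      LinearMap.finrank_le_finrank_of_injective (f := τ.toLinearMap) τ.injective
    have h3 := finrank_mul_inter (K := K) M
    have h4 : 0 < finrank K k := finrank_pos
    have h5 : finrank k M ≤ finrank K k * finrank k M := Nat.le_mul_of_pos_left _ h4
    omega

lemma card_hom_eq {E M : IntermediateField k L} (hEM : E ≤ M) (hM : Normal k M) :
    Nat.card (E →ₐ[k] M) = finrank k E := by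
  have hfdE : FiniteDimensional k E := fd_inter k E
  have hsep : Algebra.IsSeparable k E := inferInstance
  apply AlgHom.natCard_of_splits
  intro x
  have h1 := hM.splits (IntermediateField.inclusion hEM x)
  rwa [minpoly.algHom_eq _ (IntermediateField.inclusion hEM).injective] at h1

end

/-- the hypothesis on the fields of definition of the iterates -/
def Many (K k : Type) {L : Type} [Field K] [Field k] [Field L] [Algebra K k] [Algebra K L]
    [Algebra k L] [IsScalarTower K k L] {N : ℕ} (F : Fin (N + 1) → MvPolynomial (Fin (N + 1)) K)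
    (x : Fin (N + 1) → L) (R : ℝ) : Prop :=
  ∀ i : ℕ, ∃ M : IntermediateField k L,
    (finrank K M : ℝ) ^ N ≤ R * Nat.card (fod k ((act F)^[i] x) →ₐ[k] M)

/-- the bound, for integral forms -/
theorem core {K : Type} [Field K] [NumberField K] {N : ℕ}
    {F : Fin (N + 1) → MvPolynomial (Fin (N + 1)) K} {d a : ℕ} {A : ℝ}
    (hN : 1 ≤ N) (hd : 2 ≤ d) (hF : ∀ i, (F i).IsHomogeneous d) (h : Bds F d A a)
    {ε : ℝ} (hε : 0 < ε) {C₁ : ℝ} (hC₁ : 0 < C₁)
    (hfew : Few F d C₁ (fun D => D ^ ((N : ℝ) + ε / 2)))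
    {C₂ : ℝ} (hC₂ : 0 < C₂)
    (hline : N = 1 → Few F d C₂ (fun D => D * (1 + Real.log D))) :
    ∃ C : ℝ, 0 < C ∧ ∀ (k L : Type) [Field k] [NumberField k] [Field L] [NumberField L]
      [Algebra K k] [Algebra K L] [Algebra k L] [IsScalarTower K k L] (x : Fin (N + 1) → L),
      x ≠ 0 → 0 < canH F d x → ∀ R : ℝ, Many K k F x R →
      Bd N ε C R (finrank K L) (lev k F x) (canH F d x) := by
  have hd' : (2 : ℝ) ≤ d := by exact_mod_cast hd
  have hld : 0 ≤ Real.log d := Real.log_nonneg (by linarith)
  set e : ℝ := ε / 2 with he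
  have he0 : 0 < e := by positivity
  refine ⟨(1 + 2 / e) * C₁ * Real.log d + (|Real.log C₁| + 1 / ε) +
    (C₂ * Real.log d + (|Real.log C₂| + 1)) + 1, by positivity, ?_⟩
  intro k L _ _ _ _ _ _ _ _ x hx hpos R hR
  have hfdkL : FiniteDimensional k L := fd_inter k L
  have hfdKL : FiniteDimensional K L := fd_inter K L
  have hfdKk : FiniteDimensional K k := fd_inter K k
  have hD0 : 0 < finrank K L := finrank_pos
  set D : ℝ := (finrank K L : ℝ) with hD
  have hD1 : (1 : ℝ) ≤ D := by
    rw [hD]
    exact_mod_cast hD0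
  have hlD : 0 ≤ Real.log D := Real.log_nonneg hD1
  have hDe : 1 ≤ D ^ e := Real.one_le_rpow hD1 he0.le
  have hDε : 1 ≤ D ^ ε := Real.one_le_rpow hD1 hε.le
  have hDee : D ^ e * D ^ e = D ^ ε := by
    rw [← Real.rpow_add (by linarith)]
    congr 1
    rw [he]; ring
  have hMpos : ∀ M : IntermediateField k L, (1 : ℝ) ≤ finrank K M := fun M => by
    exact_mod_cast finrank_pos_inter (K := K) M
  have hMD : ∀ M : IntermediateField k L, (finrank K M : ℝ) ≤ D := fun M => by
    rw [hD]
    exact_mod_cast finrank_le_inter (K := K) M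
  -- `R ≥ 1`
  have hR1 : 1 ≤ R := by
    obtain ⟨M, hM⟩ := hR 0
    have h1 := hMpos M
    have h2 : ((Nat.card (fod k ((act F)^[0] x) →ₐ[k] M) : ℕ) : ℝ) ≤ (finrank K M : ℝ) ^ N := by
      calc ((Nat.card (fod k ((act F)^[0] x) →ₐ[k] M) : ℕ) : ℝ) ≤ finrank K M := by
            exact_mod_cast card_hom_le (K := K) (fod k ((act F)^[0] x)) M
        _ = (finrank K M : ℝ) ^ 1 := (pow_one _).symm
        _ ≤ (finrank K M : ℝ) ^ N := pow_le_pow_right₀ h1 hN
    have h3 : 0 < (finrank K M : ℝ) ^ N := by positivity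
    by_contra hcon
    push Not at hcon
    have h4 : (0 : ℝ) ≤ (Nat.card (fod k ((act F)^[0] x) →ₐ[k] M) : ℕ) := by positivity
    rcases le_or_gt R 0 with hR0 | hR0
    · nlinarith
    · nlinarith
  have hcardpos : ∀ (i : ℕ) (M : IntermediateField k L),
      (finrank K M : ℝ) ^ N ≤ R * Nat.card (fod k ((act F)^[i] x) →ₐ[k] M) →
      0 < Nat.card (fod k ((act F)^[i] x) →ₐ[k] M) := by
    intro i M hM
    by_contra h0
    have h0' : Nat.card (fod k ((act F)^[i] x) →ₐ[k] M) = 0 := by omega
    rw [h0', Nat.cast_zero, mul_zero] at hM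
    have h1 := hMpos M
    have h3 : 0 < (finrank K M : ℝ) ^ N := by positivity
    linarith
  have hlev1 : (1 : ℝ) ≤ lev k F x := by exact_mod_cast lev_pos F x
  have hlevΩ : (lev k F x : ℝ) ≤ (1 + 2 / e) * D ^ e := by
    have h1 := lev_le (k := k) h hF hx
    have hkL0 : finrank k L ≠ 0 := (finrank_pos : 0 < finrank k L).ne'
    have h2 := omega_le_log hkL0
    have h3 : ((finrank k L : ℕ) : ℝ) ≤ D := by
      rw [hD]
      have h4 : finrank K k * finrank k L = finrank K L := finrank_mul_finrank K k L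
      have h5 : 0 < finrank K k := finrank_pos
      have h6 : finrank k L ≤ finrank K L := by
        rw [← h4]
        exact Nat.le_mul_of_pos_left _ h5
      exact_mod_cast h6
    have h4 : Real.log (finrank k L) ≤ Real.log D :=
      Real.log_le_log (by exact_mod_cast Nat.pos_of_ne_zero hkL0) h3
    have h5 := Real.log_le_rpow_div (show 0 ≤ D by linarith) he0
    have h6 : (lev k F x : ℝ) ≤ 1 + ArithmeticFunction.cardFactors (finrank k L) := by
      exact_mod_cast h1
    calc (lev k F x : ℝ) ≤ 1 + 2 * Real.log D := by linarith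
      _ ≤ D ^ e + 2 * (D ^ e / e) := by linarith
      _ = (1 + 2 / e) * D ^ e := by ring
  constructor
  · -- all dimensions
    have h1 := lower (k := k) h hd hF hC₁ hfew hx hpos (Q := R * D ^ e) (by positivity) (by
      intro i
      obtain ⟨M, hM⟩ := hR i
      refine ⟨M, hcardpos i M hM, ?_⟩
      have h2 := hMpos M
      have h3 : (finrank K M : ℝ) ^ ((N : ℝ) + e) = (finrank K M : ℝ) ^ N * (finrank K M : ℝ) ^ e := by
        rw [Real.rpow_add (by linarith), Real.rpow_natCast]
      have h4 : (finrank K M : ℝ) ^ e ≤ D ^ e :=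
        Real.rpow_le_rpow (by linarith) (hMD M) he0.le
      change (finrank K M : ℝ) ^ ((N : ℝ) + e) ≤ _
      rw [h3]
      calc (finrank K M : ℝ) ^ N * (finrank K M : ℝ) ^ e ≤
          (R * Nat.card (fod k ((act F)^[i] x) →ₐ[k] M)) * D ^ e :=
            mul_le_mul hM h4 (by positivity) (by positivity)
        _ = R * D ^ e * Nat.card (fod k ((act F)^[i] x) →ₐ[k] M) := by ring)
    refine le_trans (Real.exp_le_exp.mpr (neg_le_neg ?_)) h1
    have h2 : (lev k F x : ℝ) * (C₁ * (R * D ^ e)) * Real.log d ≤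
        (1 + 2 / e) * C₁ * Real.log d * (R * D ^ ε) := by
      calc (lev k F x : ℝ) * (C₁ * (R * D ^ e)) * Real.log d ≤
          ((1 + 2 / e) * D ^ e) * (C₁ * (R * D ^ e)) * Real.log d := by
            apply mul_le_mul_of_nonneg_right _ hld
            exact mul_le_mul_of_nonneg_right hlevΩ (by positivity)
        _ = (1 + 2 / e) * C₁ * Real.log d * (R * (D ^ e * D ^ e)) := by ring
        _ = _ := by rw [hDee]
    have h3 : Real.log (C₁ * D) ≤ (|Real.log C₁| + 1 / ε) * (R * D ^ ε) := by
      rw [Real.log_mul hC₁.ne' (by linarith)]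
      have h4 := le_abs_self (Real.log C₁)
      have h5 := Real.log_le_rpow_div (show 0 ≤ D by linarith) hε
      have h6 : 1 ≤ R * D ^ ε := by nlinarith
      have h7 : D ^ ε ≤ R * D ^ ε := by nlinarith
      calc Real.log C₁ + Real.log D ≤ |Real.log C₁| * 1 + D ^ ε / ε := by linarith
        _ ≤ |Real.log C₁| * (R * D ^ ε) + (R * D ^ ε) / ε := by
            gcongr
        _ = _ := by ring
    have h4 : 0 ≤ (C₂ * Real.log d + (|Real.log C₂| + 1) + 1) * (R * D ^ ε) := by positivity
    calc (lev k F x : ℝ) * (C₁ * (R * D ^ e)) * Real.log d + Real.log (C₁ * D) ≤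
        (1 + 2 / e) * C₁ * Real.log d * (R * D ^ ε) +
          (|Real.log C₁| + 1 / ε) * (R * D ^ ε) +
          (C₂ * Real.log d + (|Real.log C₂| + 1) + 1) * (R * D ^ ε) := by linarith
      _ = _ := by ring
  · -- the line
    intro hN1
    have h1 := lower (k := k) h hd hF hC₂ (hline hN1) hx hpos (Q := R * (1 + Real.log D))
      (by positivity) (by
      intro i
      obtain ⟨M, hM⟩ := hR i
      refine ⟨M, hcardpos i M hM, ?_⟩
      have h2 := hMpos M
      have hpow : (finrank K M : ℝ) ^ N = finrank K M := by rw [hN1, pow_one]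
      rw [hpow] at hM
      have h4 : Real.log (finrank K M) ≤ Real.log D := Real.log_le_log (by linarith) (hMD M)
      have h5 : 0 ≤ Real.log (finrank K M) := Real.log_nonneg h2
      change (finrank K M : ℝ) * (1 + Real.log (finrank K M)) ≤ _
      calc (finrank K M : ℝ) * (1 + Real.log (finrank K M)) ≤
          (R * Nat.card (fod k ((act F)^[i] x) →ₐ[k] M)) * (1 + Real.log D) :=
            mul_le_mul hM (by linarith) (by positivity) (by positivity)
        _ = R * (1 + Real.log D) * Nat.card (fod k ((act F)^[i] x) →ₐ[k] M) := by ring)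
    refine le_trans (Real.exp_le_exp.mpr (neg_le_neg ?_)) h1
    set Z : ℝ := R * lev k F x * (1 + Real.log D) with hZ
    have hRl : 1 ≤ R * lev k F x := by nlinarith
    have hZ1 : 1 + Real.log D ≤ Z := by
      rw [hZ]
      nlinarith
    have h3 : Real.log (C₂ * D) ≤ (|Real.log C₂| + 1) * Z := by
      rw [Real.log_mul hC₂.ne' (by linarith)]
      have h4 := le_abs_self (Real.log C₂)
      have h5 := abs_nonneg (Real.log C₂)
      have h6 : 1 ≤ Z := by linarith
      nlinarith
    have h4 : 0 ≤ ((1 + 2 / e) * C₁ * Real.log d + (|Real.log C₁| + 1 / ε) + 1) * Z := by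
      positivity
    calc (lev k F x : ℝ) * (C₂ * (R * (1 + Real.log D))) * Real.log d + Real.log (C₂ * D) ≤
        C₂ * Real.log d * Z + (|Real.log C₂| + 1) * Z +
          ((1 + 2 / e) * C₁ * Real.log d + (|Real.log C₁| + 1 / ε) + 1) * Z := by
            rw [hZ] at h3 h4 ⊢
            linarith
      _ = _ := by rw [hZ]; ring

end

end Pool.Agent.R829.DL
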