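import Mathlib
import Pool.Agent.R829.DL.Top

/-!
Lower bounds for canonical heights over extensions with many automorphisms: forms with arbitrary
coefficients, Galois extensions, abelian extensions.
-/

set_option autoImplicit false
set_option linter.unusedSectionVars false

namespace Pool.Agent.R829.DL

open NumberField Module MvPolynomial Filter Topology
open Pool.Agent.W238.Leh

noncomputable section

section clauses

variable {K k L : Type} [Field K] [NumberField K] [Field k] [NumberField k] [Field L]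
  [NumberField L] [Algebra K k] [Algebra K L] [Algebra k L] [IsScalarTower K k L] {N : ℕ}

lemma many_galois (F : Fin (N + 1) → MvPolynomial (Fin (N + 1)) K) (x : Fin (N + 1) → L)
    (hG : IsGalois k L) :
    Many K k F x ((finrank K k : ℝ) ^ N * (finrank k L : ℝ) ^ ((N : ℝ) ^ 2 / (N + 1))) := by
  intro i
  set E := fod k ((act F)^[i] x) with hE
  have hfdE : FiniteDimensional k E := fd_inter k E
  have hfdkL : FiniteDimensional k L := fd_inter k L
  have hG0 : (0 : ℝ) < finrank k L := by exact_mod_cast (finrank_pos : 0 < finrank k L)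
  have hB0 : (0 : ℝ) ≤ finrank K k := by positivity
  have hN1 : (0 : ℝ) < (N : ℝ) + 1 := by positivity
  set t : ℝ := (finrank k L : ℝ) ^ ((N : ℝ) / (N + 1)) with ht
  have ht0 : 0 < t := by positivity
  have htN : t ^ N = (finrank k L : ℝ) ^ ((N : ℝ) ^ 2 / (N + 1)) := by
    rw [ht, ← Real.rpow_natCast, ← Real.rpow_mul hG0.le]
    congr 1
    ring
  rw [← htN]
  rcases le_or_gt (finrank k E : ℝ) t with h1 | h1
  · refine ⟨E, ?_⟩
    have h2 := finrank_mul_inter (K := K) E
    have h3 : (finrank K E : ℝ) = finrank K k * finrank k E := by exact_mod_cast h2.symm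
    have h4 : 0 < Nat.card (E →ₐ[k] E) := by
      rw [Nat.card_pos_iff]
      exact ⟨⟨AlgHom.id k E⟩, inferInstance⟩
    have h5 : (1 : ℝ) ≤ Nat.card (E →ₐ[k] E) := by exact_mod_cast h4
    rw [h3, mul_pow]
    calc (finrank K k : ℝ) ^ N * (finrank k E : ℝ) ^ N ≤ (finrank K k : ℝ) ^ N * t ^ N :=
          mul_le_mul_of_nonneg_left (pow_le_pow_left₀ (by positivity) h1 N) (by positivity)
      _ = (finrank K k : ℝ) ^ N * t ^ N * 1 := (mul_one _).symm
      _ ≤ _ := mul_le_mul_of_nonneg_left h5 (by positivity)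
  · refine ⟨⊤, ?_⟩
    have h2 := finrank_mul_inter (K := K) (⊤ : IntermediateField k L)
    rw [IntermediateField.finrank_top'] at h2
    have h3 : (finrank K (⊤ : IntermediateField k L) : ℝ) = finrank K k * finrank k L := by
      exact_mod_cast h2.symm
    have hnorm : Normal k (⊤ : IntermediateField k L) := by
      have : Normal k L := inferInstance
      exact Normal.of_algEquiv IntermediateField.topEquiv.symm
    have h4 := card_hom_eq (k := k) (L := L) (E := E) (M := ⊤) le_top hnorm
    rw [h4, h3, mul_pow]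
    have h5 : (finrank k L : ℝ) ^ N = t ^ N * t := by
      rw [htN, ht, ← Real.rpow_add hG0, ← Real.rpow_natCast]
      congr 1
      field_simp
    rw [h5]
    calc (finrank K k : ℝ) ^ N * (t ^ N * t) ≤ (finrank K k : ℝ) ^ N * (t ^ N * finrank k E) :=
          mul_le_mul_of_nonneg_left (mul_le_mul_of_nonneg_left h1.le (by positivity))
            (by positivity)
      _ = _ := by ring

lemma many_fields (hN : 1 ≤ N) (F : Fin (N + 1) → MvPolynomial (Fin (N + 1)) K)
    (x : Fin (N + 1) → L) (hG : ∀ i : ℕ, IsGalois k (fod k ((act F)^[i] x))) :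
    Many K k F x ((finrank K k : ℝ) ^ N * (finrank k L : ℝ) ^ (N - 1)) := by
  intro i
  have hGi := hG i
  set E := fod k ((act F)^[i] x) with hE
  have hfdE : FiniteDimensional k E := fd_inter k E
  have hfdkL : FiniteDimensional k L := fd_inter k L
  refine ⟨E, ?_⟩
  have h2 := finrank_mul_inter (K := K) E
  have h3 : (finrank K E : ℝ) = finrank K k * finrank k E := by exact_mod_cast h2.symm
  have hnorm : Normal k E := inferInstance
  have h4 := card_hom_eq (k := k) (L := L) (E := E) (M := E) le_rfl hnorm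
  have h5 : (finrank k E : ℝ) ≤ finrank k L := by
    have : finrank k E ≤ finrank k L :=
      LinearMap.finrank_le_finrank_of_injective (f := (IntermediateField.val E).toLinearMap)
        (IntermediateField.val E).injective
    exact_mod_cast this
  rw [h4, h3, mul_pow]
  have h6 : (finrank k E : ℝ) ^ N = (finrank k E : ℝ) ^ (N - 1) * finrank k E := by
    rw [← pow_succ]
    congr 1
    omega
  rw [h6]
  calc (finrank K k : ℝ) ^ N * ((finrank k E : ℝ) ^ (N - 1) * finrank k E) ≤
      (finrank K k : ℝ) ^ N * ((finrank k L : ℝ) ^ (N - 1) * finrank k E) := by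
        apply mul_le_mul_of_nonneg_left _ (by positivity)
        exact mul_le_mul_of_nonneg_right (pow_le_pow_left₀ (by positivity) h5 _) (by positivity)
    _ = _ := by ring

end clauses

lemma exists_line {K : Type} [Field K] [NumberField K] {N : ℕ}
    {F : Fin (N + 1) → MvPolynomial (Fin (N + 1)) K} {d a c : ℕ} {A : ℝ}
    (h : Bds F d A a) (hd : 2 ≤ d) (hF : ∀ i, (F i).IsHomogeneous d)
    (hc : ∀ m, c + d ≤ m → ∀ p : MvPolynomial (Fin (N + 1)) K, p.IsHomogeneous m →
      p ∈ Ideal.span (Set.range F)) :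
    ∃ C₂ : ℝ, 0 < C₂ ∧ (N = 1 → Few F d C₂ (fun D => D * (1 + Real.log D))) := by
  by_cases hN : N = 1
  · subst hN
    obtain ⟨C, hC, h1⟩ := small_line h hd hF hc
    exact ⟨C, hC, fun _ => h1⟩
  · exact ⟨1, one_pos, fun h => absurd h hN⟩

/-- **the main theorem** -/
theorem main (K : Type) [Field K] [NumberField K] (N d : ℕ) (hN : 1 ≤ N) (hd : 2 ≤ d)
    (F : Fin (N + 1) → MvPolynomial (Fin (N + 1)) K) (hF : ∀ i, (F i).IsHomogeneous d)
    (hmor : ∀ z : Fin (N + 1) → AlgebraicClosure K, (∀ i, aeval z (F i) = 0) → z = 0)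
    (ε : ℝ) (hε : 0 < ε) :
    ∃ C : ℝ, 0 < C ∧ ∀ (k L : Type) [Field k] [NumberField k] [Field L] [NumberField L]
      [Algebra K k] [Algebra K L] [Algebra k L] [IsScalarTower K k L] (x : Fin (N + 1) → L),
      x ≠ 0 → (¬ ∃ m n : ℕ, m ≠ n ∧ ∃ c : L, c ≠ 0 ∧ (act F)^[n] x = c • (act F)^[m] x) →
      Tendsto (fun n : ℕ => Height.logHeight ((act F)^[n] x) /
        ((finrank ℚ L : ℝ) * (d : ℝ) ^ n)) atTop (𝓝 (canH F d x)) ∧
      lev k F x ≤ 1 + ArithmeticFunction.cardFactors (finrank k L) ∧
      (∀ R : ℝ, Many K k F x R → Bd N ε C R (finrank K L) (lev k F x) (canH F d x)) ∧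
      (IsGalois k L → Bd N ε C
        ((finrank K k : ℝ) ^ N * (finrank k L : ℝ) ^ ((N : ℝ) ^ 2 / (N + 1)))
        (finrank K L) (lev k F x) (canH F d x)) ∧
      ((∀ i : ℕ, IsGalois k (fod k ((act F)^[i] x))) → Bd N ε C
        ((finrank K k : ℝ) ^ N * (finrank k L : ℝ) ^ (N - 1))
        (finrank K L) (lev k F x) (canH F d x)) := by
  classical
  -- integral forms
  set T : Finset K := Finset.univ.biUnion fun i => (F i).support.image (F i).coeff with hT
  obtain ⟨a, ha, haT⟩ := exists_denom T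
  have haK : (a : K) ≠ 0 := by
    have : a ≠ 0 := by omega
    exact_mod_cast this
  set F' : Fin (N + 1) → MvPolynomial (Fin (N + 1)) K := fun i => C (a : K) * F i with hF'
  have hhom : ∀ i, (F' i).IsHomogeneous d := by
    intro i
    have h7 := (isHomogeneous_C (Fin (N + 1)) (a : K)).mul (hF i)
    rwa [zero_add] at h7
  have hint : ∀ i s, IsIntegral ℤ ((F' i).coeff s) := by
    intro i s
    simp only [hF', coeff_C_mul]
    by_cases hs : s ∈ (F i).support
    · apply haT
      rw [hT]
      simp only [Finset.mem_biUnion, Finset.mem_image]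
      exact ⟨i, Finset.mem_univ _, s, hs, rfl⟩
    · rw [notMem_support_iff.mp hs, mul_zero]
      exact isIntegral_zero
  have hmor' : ∀ z : Fin (N + 1) → AlgebraicClosure K, (∀ i, aeval z (F' i) = 0) → z = 0 := by
    intro z hz
    apply hmor
    intro i
    have h1 := hz i
    simp only [hF', map_mul, aeval_C] at h1
    refine (mul_eq_zero.mp h1).resolve_left ?_
    rw [map_natCast]
    have : a ≠ 0 := by omega
    exact_mod_cast this
  obtain ⟨A, b, hB, C₁, hC₁, hconcl⟩ := final_int hd hhom hint hmor' (half_pos hε)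
  obtain ⟨c, hc0⟩ := exists_mem_span hmor'
  have hc : ∀ m, c + d ≤ m → ∀ p : MvPolynomial (Fin (N + 1)) K, p.IsHomogeneous m →
      p ∈ Ideal.span (Set.range F') := fun m hm p hp => hc0 m (by omega) p hp
  obtain ⟨C₂, hC₂, hline⟩ := exists_line hB hd hhom hc
  obtain ⟨C, hC, hcore⟩ := core hN hd hhom hB hε hC₁
    (fun M _ _ _ n x h1 h2 h3 => (hconcl M).1 n x h1 h2 h3) hC₂ hline
  refine ⟨C, hC, ?_⟩
  intro k L _ _ _ _ _ _ _ _ x hx hw
  have haL : (a : L) ≠ 0 := by
    have : a ≠ 0 := by omega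
    exact_mod_cast this
  have hact : ∀ z : Fin (N + 1) → L, act F' z = (a : L) • act F z := by
    intro z
    funext i
    simp only [act, hF', map_mul, map_natCast, Pi.smul_apply, smul_eq_mul]
  have hiter : ∀ (n : ℕ) (z : Fin (N + 1) → L), ∃ c : L, c ≠ 0 ∧
      (act F')^[n] z = c • (act F)^[n] z := by
    intro n z
    induction n with
    | zero => exact ⟨1, one_ne_zero, by simp⟩
    | succ n ih =>
      obtain ⟨c, hc, h⟩ := ih
      refine ⟨a * c ^ d, mul_ne_zero haL (pow_ne_zero _ hc), ?_⟩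
      rw [Function.iterate_succ_apply', Function.iterate_succ_apply', h, hact,
        act_smul hF, smul_smul]
  have hseq : ∀ z : Fin (N + 1) → L, (fun n : ℕ => Height.logHeight ((act F')^[n] z) /
      ((finrank ℚ L : ℝ) * (d : ℝ) ^ n)) = fun n : ℕ => Height.logHeight ((act F)^[n] z) /
      ((finrank ℚ L : ℝ) * (d : ℝ) ^ n) := by
    intro z
    funext n
    obtain ⟨c, hc, h⟩ := hiter n z
    rw [h, Height.logHeight_smul_eq_logHeight _ hc]
  have hcan : ∀ z : Fin (N + 1) → L, canH F' d z = canH F d z := by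
    intro z
    unfold canH
    rw [hseq]
  have hfod : ∀ i : ℕ, fod k ((act F')^[i] x) = fod k ((act F)^[i] x) := by
    intro i
    obtain ⟨c, hc, h⟩ := hiter i x
    rw [h, fod_smul hc]
  have hlev : lev k F' x = lev k F x := by
    unfold lev
    simp only [hfod]
  have hw' : ¬ ∃ m n : ℕ, m ≠ n ∧ ∃ b : L, b ≠ 0 ∧ (act F')^[n] x = b • (act F')^[m] x := by
    rintro ⟨m, n, hmn, c, hc, h⟩
    apply hw
    obtain ⟨c₁, hc₁, h₁⟩ := hiter n x
    obtain ⟨c₂, hc₂, h₂⟩ := hiter m x
    refine ⟨m, n, hmn, c₁⁻¹ * (c * c₂), mul_ne_zero (inv_ne_zero hc₁) (mul_ne_zero hc hc₂), ?_⟩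
    rw [h₁, h₂] at h
    have h3 : (act F)^[n] x = c₁⁻¹ • (c₁ • (act F)^[n] x) := by
      rw [smul_smul, inv_mul_cancel₀ hc₁, one_smul]
    have h4 : (act F)^[n] x = (c₁⁻¹ * (c * c₂)) • (act F)^[m] x := by
      rw [h3, h, smul_smul, smul_smul]
      congr 1
      ring
    exact h4
  have hpos : 0 < canH F' d x := lt_of_lt_of_le (Real.exp_pos _) ((hconcl L).2 x hx hw')
  have hmain : ∀ R : ℝ, Many K k F x R →
      Bd N ε C R (finrank K L) (lev k F x) (canH F d x) := by
    intro R hR
    have h1 := hcore k L x hx hpos R (by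
      intro i
      rw [hfod i]
      exact hR i)
    rwa [hcan, hlev] at h1
  refine ⟨?_, ?_, hmain, ?_, ?_⟩
  · have h1 := hB.canH_tendsto hd hx
    rw [hcan, hseq] at h1
    exact h1
  · rw [← hlev]
    exact lev_le hB hhom hx
  · intro hG
    exact hmain _ (many_galois F x hG)
  · intro hG
    exact hmain _ (many_fields hN F x hG)

end

end Pool.Agent.R829.DL
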